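import Mathlib

set_option autoImplicit false

open Matrix Polynomial Finset

namespace Pool.Agent.Results.MP_08a990_an.RankOne

/-- `A` is Hermitian and `a` is the list of its eigenvalues, with multiplicity, in non-increasing
order -/
def IsEig {n : ℕ} (A : Matrix (Fin n) (Fin n) ℂ) (a : Fin n → ℝ) : Prop :=
  A.IsHermitian ∧ Antitone a ∧ A.charpoly = ∏ j, (X - C ((a j : ℝ) : ℂ))

/-- `s` is the list of the singular values of `M`, with multiplicity, in non-increasing order: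
the non-negative square roots of the eigenvalues of `Mᴴ * M` -/
def IsSing {n : ℕ} (M : Matrix (Fin n) (Fin n) ℂ) (s : Fin n → ℝ) : Prop :=
  Antitone s ∧ (∀ j, 0 ≤ s j) ∧ (Mᴴ * M).charpoly = ∏ j, (X - C (((s j) ^ 2 : ℝ) : ℂ))

/-- realizable triples -/
def Realizable {n : ℕ} (a b s : Fin n → ℝ) : Prop :=
  ∃ A B : Matrix (Fin n) (Fin n) ℂ, IsEig A a ∧ IsEig B b ∧ IsSing (A + Complex.I • B) s

/-- the explicit matrices `diag a + i β u uᵀ` -/
noncomputable def MM {n : ℕ} (a u : Fin n → ℝ) (β : ℝ) : Matrix (Fin n) (Fin n) ℂ :=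
  Matrix.diagonal (fun j => ((a j : ℝ) : ℂ)) +
    Complex.I • Matrix.of (fun i j => ((β * u i * u j : ℝ) : ℂ))

/-! ### det_id -/

theorem det_id_two {n : ℕ} (p a u : Fin n → ℝ) (β N : ℝ) (hp : ∀ j, p j ≠ 0) :
    (Matrix.diagonal (fun j => ((p j : ℝ) : ℂ)) +
      Matrix.of (fun i j => ((β ^ 2 * N * u i * u j : ℝ) : ℂ) +
        Complex.I * ((β * (a i - a j) * u i * u j : ℝ) : ℂ))).det =
      (∏ j, ((p j : ℝ) : ℂ)) *
        ((1 + (((β ^ 2 * N * (∑ j, u j ^ 2 / p j) : ℝ) : ℂ) -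
          Complex.I * ((β * ∑ j, a j * u j ^ 2 / p j : ℝ) : ℂ))) *
          (1 + Complex.I * ((β * ∑ j, a j * u j ^ 2 / p j : ℝ) : ℂ)) -
          (((β ^ 2 * N * (∑ j, a j * u j ^ 2 / p j) : ℝ) : ℂ) -
          Complex.I * ((β * ∑ j, a j ^ 2 * u j ^ 2 / p j : ℝ) : ℂ)) *
          (Complex.I * ((β * ∑ j, u j ^ 2 / p j : ℝ) : ℂ))) := by
  classical
  obtain ⟨U, hU⟩ : ∃ U : Matrix (Fin n) (Fin 2) ℂ, ∀ j, U j 0 = ((u j : ℝ) : ℂ) ∧
      U j 1 = ((a j * u j : ℝ) : ℂ) :=
    ⟨fun j k => if k = 0 then ((u j : ℝ) : ℂ) else ((a j * u j : ℝ) : ℂ), fun j => by simp⟩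
  obtain ⟨V, hV⟩ : ∃ V : Matrix (Fin 2) (Fin n) ℂ, ∀ j, V 0 j = ((β ^ 2 * N * u j : ℝ) : ℂ) -
      Complex.I * ((β * a j * u j : ℝ) : ℂ) ∧ V 1 j = Complex.I * ((β * u j : ℝ) : ℂ) :=
    ⟨fun k j => if k = 0 then ((β ^ 2 * N * u j : ℝ) : ℂ) -
      Complex.I * ((β * a j * u j : ℝ) : ℂ) else Complex.I * ((β * u j : ℝ) : ℂ),
      fun j => by simp⟩
  have h1 : (Matrix.diagonal (fun j => ((p j : ℝ) : ℂ)) +
      Matrix.of (fun i j => ((β ^ 2 * N * u i * u j : ℝ) : ℂ) +
        Complex.I * ((β * (a i - a j) * u i * u j : ℝ) : ℂ))) =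
      Matrix.diagonal (fun j => ((p j : ℝ) : ℂ)) *
        (1 + (Matrix.diagonal (fun j => (((p j)⁻¹ : ℝ) : ℂ)) * U) * V) := by
    rw [mul_add, mul_one, ← Matrix.mul_assoc, ← Matrix.mul_assoc, Matrix.diagonal_mul_diagonal]
    have h2 : (Matrix.diagonal fun j => ((p j : ℝ) : ℂ) * (((p j)⁻¹ : ℝ) : ℂ)) = 1 := by
      rw [← Matrix.diagonal_one]
      congr 1
      ext j
      rw [← Complex.ofReal_mul, mul_inv_cancel₀ (hp j), Complex.ofReal_one]
    rw [h2, Matrix.one_mul]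
    congr 1
    ext i j
    rw [Matrix.mul_apply, Fin.sum_univ_two, (hU i).1, (hU i).2, (hV j).1, (hV j).2, Matrix.of_apply]
    push_cast
    ring
  rw [h1, Matrix.det_mul, Matrix.det_diagonal, Matrix.det_one_add_mul_comm, Matrix.det_fin_two]
  have e00 : (1 + V * (Matrix.diagonal (fun j => (((p j)⁻¹ : ℝ) : ℂ)) * U) : Matrix (Fin 2) (Fin 2) ℂ) 0 0 =
      1 + (((β ^ 2 * N * (∑ j, u j ^ 2 / p j) : ℝ) : ℂ) -
          Complex.I * ((β * ∑ j, a j * u j ^ 2 / p j : ℝ) : ℂ)) := by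
    rw [Matrix.add_apply, Matrix.one_apply_eq, Matrix.mul_apply]
    congr 1
    push_cast
    rw [Finset.mul_sum, Finset.mul_sum, Finset.mul_sum, ← Finset.sum_sub_distrib]
    apply Finset.sum_congr rfl
    intro j _
    rw [Matrix.diagonal_mul, (hU j).1, (hV j).1]
    push_cast
    ring
  have e01 : (1 + V * (Matrix.diagonal (fun j => (((p j)⁻¹ : ℝ) : ℂ)) * U) : Matrix (Fin 2) (Fin 2) ℂ) 0 1 =
      (((β ^ 2 * N * (∑ j, a j * u j ^ 2 / p j) : ℝ) : ℂ) -
          Complex.I * ((β * ∑ j, a j ^ 2 * u j ^ 2 / p j : ℝ) : ℂ)) := by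
    rw [Matrix.add_apply, Matrix.one_apply_ne (by decide), Matrix.mul_apply, zero_add]
    push_cast
    rw [Finset.mul_sum, Finset.mul_sum, Finset.mul_sum, ← Finset.sum_sub_distrib]
    apply Finset.sum_congr rfl
    intro j _
    rw [Matrix.diagonal_mul, (hU j).2, (hV j).1]
    push_cast
    ring
  have e10 : (1 + V * (Matrix.diagonal (fun j => (((p j)⁻¹ : ℝ) : ℂ)) * U) : Matrix (Fin 2) (Fin 2) ℂ) 1 0 =
      (Complex.I * ((β * ∑ j, u j ^ 2 / p j : ℝ) : ℂ)) := by
    rw [Matrix.add_apply, Matrix.one_apply_ne (by decide), Matrix.mul_apply, zero_add]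
    push_cast
    rw [Finset.mul_sum, Finset.mul_sum]
    apply Finset.sum_congr rfl
    intro j _
    rw [Matrix.diagonal_mul, (hU j).1, (hV j).2]
    push_cast
    ring
  have e11 : (1 + V * (Matrix.diagonal (fun j => (((p j)⁻¹ : ℝ) : ℂ)) * U) : Matrix (Fin 2) (Fin 2) ℂ) 1 1 =
      1 + Complex.I * ((β * ∑ j, a j * u j ^ 2 / p j : ℝ) : ℂ) := by
    rw [Matrix.add_apply, Matrix.one_apply_eq, Matrix.mul_apply]
    congr 1
    push_cast
    rw [Finset.mul_sum, Finset.mul_sum]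
    apply Finset.sum_congr rfl
    intro j _
    rw [Matrix.diagonal_mul, (hU j).2, (hV j).2]
    push_cast
    ring
  rw [e00, e01, e10, e11]

theorem det_id_norm {n : ℕ} (a u : Fin n → ℝ) (τ : ℝ) (hτ : τ ≠ 0) :
    ‖∑ j, ((u j ^ 2 : ℝ) : ℂ) * ∏ i ∈ univ.erase j, ((τ : ℂ) + Complex.I * a i)‖ ^ 2 =
      (∏ j, (τ ^ 2 + a j ^ 2)) * (τ ^ 2 * (∑ j, u j ^ 2 / (τ ^ 2 + a j ^ 2)) ^ 2 +
        (∑ j, a j * u j ^ 2 / (τ ^ 2 + a j ^ 2)) ^ 2) := by
  have hp : ∀ j, (τ ^ 2 + a j ^ 2) ≠ 0 := fun j => by positivity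
  have h1 : ∑ j, ((u j ^ 2 : ℝ) : ℂ) * ∏ i ∈ univ.erase j, ((τ : ℂ) + Complex.I * a i) =
      (∏ j, ((τ : ℂ) + Complex.I * a j)) *
        (((τ * ∑ j, u j ^ 2 / (τ ^ 2 + a j ^ 2) : ℝ) : ℂ) +
          ((-(∑ j, a j * u j ^ 2 / (τ ^ 2 + a j ^ 2)) : ℝ) : ℂ) * Complex.I) := by
    have h2 : (((τ * ∑ j, u j ^ 2 / (τ ^ 2 + a j ^ 2) : ℝ) : ℂ) +
          ((-(∑ j, a j * u j ^ 2 / (τ ^ 2 + a j ^ 2)) : ℝ) : ℂ) * Complex.I) =
        ∑ j, (((u j ^ 2 / (τ ^ 2 + a j ^ 2) : ℝ) : ℂ) * ((τ : ℂ) - Complex.I * a j)) := by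
      push_cast
      rw [Finset.mul_sum, neg_mul, Finset.sum_mul, ← sub_eq_add_neg, ← Finset.sum_sub_distrib]
      apply Finset.sum_congr rfl
      intro j _
      ring
    rw [h2, Finset.mul_sum]
    apply Finset.sum_congr rfl
    intro j _
    rw [← Finset.mul_prod_erase univ _ (Finset.mem_univ j)]
    have h3 : (((τ : ℂ) + Complex.I * a j) * ((τ : ℂ) - Complex.I * a j)) =
        ((τ ^ 2 + a j ^ 2 : ℝ) : ℂ) := by
      push_cast
      linear_combination (-(a j : ℂ) ^ 2) * Complex.I_sq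
    have h4 : ((u j ^ 2 : ℝ) : ℂ) = ((u j ^ 2 / (τ ^ 2 + a j ^ 2) : ℝ) : ℂ) *
        ((τ ^ 2 + a j ^ 2 : ℝ) : ℂ) := by
      rw [← Complex.ofReal_mul, div_mul_cancel₀ _ (hp j)]
    rw [h4, ← h3]
    ring
  rw [h1, norm_mul, mul_pow]
  have h5 : ‖∏ j, ((τ : ℂ) + Complex.I * a j)‖ ^ 2 = ∏ j, (τ ^ 2 + a j ^ 2) := by
    rw [norm_prod, ← Finset.prod_pow]
    apply Finset.prod_congr rfl
    intro j _
    rw [mul_comm, ← Complex.normSq_eq_norm_sq, Complex.normSq_add_mul_I]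
  rw [h5, ← Complex.normSq_eq_norm_sq, Complex.normSq_add_mul_I]
  congr 1
  ring

theorem det_id {n : ℕ} (a u : Fin n → ℝ) (β τ : ℝ) (hτ : τ ≠ 0) :
    (((τ ^ 2 : ℝ) : ℂ) • (1 : Matrix (Fin n) (Fin n) ℂ) + (MM a u β)ᴴ * MM a u β).det =
      (((∏ j, (τ ^ 2 + a j ^ 2)) + β ^ 2 *
        ‖∑ j, ((u j ^ 2 : ℝ) : ℂ) * ∏ i ∈ univ.erase j, ((τ : ℂ) + Complex.I * a i)‖ ^ 2 : ℝ) : ℂ) := by
  have hp : ∀ j, (τ ^ 2 + a j ^ 2) ≠ 0 := fun j => by positivity
  have h0 : (((τ ^ 2 : ℝ) : ℂ) • (1 : Matrix (Fin n) (Fin n) ℂ) + (MM a u β)ᴴ * MM a u β) =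
      (Matrix.diagonal (fun j => ((τ ^ 2 + a j ^ 2 : ℝ) : ℂ)) +
      Matrix.of (fun i j => ((β ^ 2 * (∑ k, u k ^ 2) * u i * u j : ℝ) : ℂ) +
        Complex.I * ((β * (a i - a j) * u i * u j : ℝ) : ℂ))) := by
    have h1 : (MM a u β)ᴴ = Matrix.diagonal (fun j => ((a j : ℝ) : ℂ)) -
        Complex.I • Matrix.of (fun i j => ((β * u i * u j : ℝ) : ℂ)) := by
      ext i j
      rw [Matrix.conjTranspose_apply, MM, Matrix.add_apply, Matrix.sub_apply, Matrix.smul_apply,
        Matrix.smul_apply, Matrix.of_apply, Matrix.of_apply, star_add]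
      have e1 : star ((Matrix.diagonal (fun j => ((a j : ℝ) : ℂ))) j i) =
          (Matrix.diagonal (fun j => ((a j : ℝ) : ℂ))) i j := by
        by_cases hij : i = j
        · subst hij
          rw [Matrix.diagonal_apply_eq]
          exact Complex.conj_ofReal _
        · rw [Matrix.diagonal_apply_ne _ hij, Matrix.diagonal_apply_ne _ (Ne.symm hij), star_zero]
      have e2 : star (Complex.I • ((β * u j * u i : ℝ) : ℂ)) =
          -(Complex.I • ((β * u i * u j : ℝ) : ℂ)) := by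
        rw [smul_eq_mul, smul_eq_mul, star_mul']
        have e3 : star Complex.I = -Complex.I := Complex.conj_I
        have e4 : star ((β * u j * u i : ℝ) : ℂ) = ((β * u j * u i : ℝ) : ℂ) := Complex.conj_ofReal _
        rw [e3, e4]
        push_cast
        ring
      rw [e1, e2, sub_eq_add_neg]
    rw [h1, MM, Matrix.sub_mul, Matrix.mul_add, Matrix.mul_add, Matrix.diagonal_mul_diagonal]
    ext i j
    simp only [Matrix.add_apply, Matrix.sub_apply, Matrix.smul_apply, Matrix.smul_mul,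
      Matrix.mul_smul, Matrix.diagonal_mul, Matrix.mul_diagonal, Matrix.of_apply, smul_eq_mul]
    have e5 : (Matrix.of (fun i j => ((β * u i * u j : ℝ) : ℂ)) *
        Matrix.of (fun i j => ((β * u i * u j : ℝ) : ℂ)) : Matrix (Fin n) (Fin n) ℂ) i j =
        ((β ^ 2 * (∑ k, u k ^ 2) * u i * u j : ℝ) : ℂ) := by
      rw [Matrix.mul_apply]
      simp only [Matrix.of_apply]
      rw [Finset.mul_sum, Finset.sum_mul, Finset.sum_mul, Complex.ofReal_sum]
      apply Finset.sum_congr rfl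
      intro k _
      push_cast
      ring
    rw [e5]
    by_cases hij : i = j
    · subst hij
      rw [Matrix.diagonal_apply_eq, Matrix.diagonal_apply_eq, Matrix.one_apply_eq]
      push_cast
      linear_combination (-((β : ℂ) ^ 2 * (∑ k, (u k : ℂ) ^ 2) * u i * u i)) * Complex.I_sq
    · rw [Matrix.diagonal_apply_ne _ hij, Matrix.diagonal_apply_ne _ hij, Matrix.one_apply_ne hij]
      push_cast
      linear_combination (-((β : ℂ) ^ 2 * (∑ k, (u k : ℂ) ^ 2) * u i * u j)) * Complex.I_sq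
  have hN : ∑ k, u k ^ 2 = τ ^ 2 * (∑ j, u j ^ 2 / (τ ^ 2 + a j ^ 2)) +
      ∑ j, a j ^ 2 * u j ^ 2 / (τ ^ 2 + a j ^ 2) := by
    rw [Finset.mul_sum, ← Finset.sum_add_distrib]
    apply Finset.sum_congr rfl
    intro j _
    have := hp j
    field_simp
  rw [h0, det_id_two (fun j => τ ^ 2 + a j ^ 2) a u β _ hp, det_id_norm a u τ hτ, hN]
  generalize (∑ j, u j ^ 2 / (τ ^ 2 + a j ^ 2)) = s0
  generalize (∑ j, a j * u j ^ 2 / (τ ^ 2 + a j ^ 2)) = s1
  generalize (∑ j, a j ^ 2 * u j ^ 2 / (τ ^ 2 + a j ^ 2)) = s2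
  rw [← Complex.ofReal_prod]
  generalize (∏ j, (τ ^ 2 + a j ^ 2)) = PP
  push_cast
  linear_combination ((PP : ℂ) * β ^ 2 * s0 * s2 - PP * β ^ 2 * s1 ^ 2) * Complex.I_sq

/-! ### weights -/

theorem weights_erase {M : Type*} [CommMonoid M] (m : ℕ) (j : Fin (m+1)) (f : Fin (m+1) → M) :
    ∏ i ∈ univ.erase j, f i = ∏ k : Fin m, f (j.succAbove k) := by
  rw [← Finset.compl_singleton, ← Fin.image_succAbove_univ, Finset.prod_image]
  intro x _ y _ h
  exact Fin.succAbove_right_injective h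

theorem weights_pos (m : ℕ) (a : Fin (m + 1) → ℝ) (c : Fin m → ℝ)
    (h : ∀ k : Fin m, a k.succ < c k ∧ c k < a k.castSucc) (j : Fin (m+1)) (k : Fin m) :
    0 < (a j - c k) / (a j - a (j.succAbove k)) := by
  have hs : StrictAnti a := Fin.strictAnti_iff_succ_lt.2 fun i => (h i).1.trans (h i).2
  by_cases hk : k.castSucc < j
  · rw [Fin.succAbove_of_castSucc_lt _ _ hk]
    apply div_pos_of_neg_of_neg
    · have h1 : k.succ ≤ j := Fin.castSucc_lt_iff_succ_le.1 hk
      have h2 := hs.antitone h1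
      linarith [(h k).1]
    · have h2 := hs hk
      linarith
  · push Not at hk
    rw [Fin.succAbove_of_le_castSucc _ _ hk]
    apply div_pos
    · have h2 := hs.antitone hk
      linarith [(h k).2]
    · have h1 : j < k.succ := lt_of_le_of_lt hk Fin.castSucc_lt_succ
      have h2 := hs h1
      linarith

theorem weights_coeff {ι : Type*} (s : Finset ι) (f : ι → ℂ) :
    (∏ i ∈ s, (X - C (f i))).coeff s.card = 1 := by
  have h1 : (∏ i ∈ s, (X - C (f i))).Monic := Polynomial.monic_prod_of_monic _ _ fun i _ => Polynomial.monic_X_sub_C _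
  have h2 : (∏ i ∈ s, (X - C (f i))).natDegree = s.card := by
    rw [Polynomial.natDegree_prod_of_monic _ _ fun i _ => Polynomial.monic_X_sub_C _]
    simp
  rw [← h2]
  exact h1

theorem weights_deg {ι : Type*} (s : Finset ι) (f : ι → ℂ) :
    (∏ i ∈ s, (X - C (f i))).degree = (s.card : WithBot ℕ) := by
  rw [Polynomial.degree_prod]
  simp

theorem weights (m : ℕ) (a : Fin (m + 1) → ℝ) (c : Fin m → ℝ)
    (h : ∀ k : Fin m, a k.succ < c k ∧ c k < a k.castSucc) :
    ∃ w : Fin (m + 1) → ℝ, (∀ j, 0 < w j) ∧ ∑ j, w j = 1 ∧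
      ∀ x : ℂ, ∑ j, (w j : ℂ) * ∏ i ∈ univ.erase j, (x - a i) = ∏ k, (x - c k) := by
  have hs : StrictAnti a := Fin.strictAnti_iff_succ_lt.2 fun i => (h i).1.trans (h i).2
  obtain ⟨w, hw⟩ : ∃ w : Fin (m+1) → ℝ, ∀ j, w j = ∏ k, (a j - c k) / (a j - a (j.succAbove k)) :=
    ⟨_, fun _ => rfl⟩
  have hpos : ∀ j, 0 < w j := by
    intro j
    rw [hw]
    exact Finset.prod_pos fun k _ => weights_pos m a c h j k
  have key : ∀ j, w j * ∏ i ∈ univ.erase j, (a j - a i) = ∏ k, (a j - c k) := by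
    intro j
    rw [hw, weights_erase, ← Finset.prod_mul_distrib]
    refine Finset.prod_congr rfl fun k _ => ?_
    apply div_mul_cancel₀
    exact sub_ne_zero.2 (hs.injective.ne (Fin.succAbove_ne j k).symm)
  have hP : (∑ j, C ((w j : ℝ) : ℂ) * ∏ i ∈ univ.erase j, (X - C ((a i : ℝ) : ℂ)))
      = ∏ k, (X - C ((c k : ℝ) : ℂ)) := by
    apply Polynomial.eq_of_degrees_lt_of_eval_index_eq (s := (univ : Finset (Fin (m+1))))
      (v := fun j => ((a j : ℝ) : ℂ))
    · intro x _ y _ hxy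
      simp only at hxy
      exact hs.injective (by exact_mod_cast hxy)
    · apply lt_of_le_of_lt (Polynomial.degree_sum_le _ _)
      rw [Finset.sup_lt_iff]
      · intro j _
        rw [Polynomial.degree_C_mul (by exact_mod_cast (hpos j).ne')]
        rw [weights_deg, Finset.card_erase_of_mem (Finset.mem_univ j)]
        simp only [Finset.card_univ, Fintype.card_fin]
        exact_mod_cast Nat.lt_succ_self m
      · simp only [Finset.card_univ, Fintype.card_fin]
        exact WithBot.bot_lt_coe _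
    · rw [weights_deg]
      simp only [Finset.card_univ, Fintype.card_fin]
      exact_mod_cast Nat.lt_succ_self m
    · intro j _
      rw [Polynomial.eval_finsetSum, Finset.sum_eq_single j]
      · rw [Polynomial.eval_mul, Polynomial.eval_C, Polynomial.eval_prod, Polynomial.eval_prod]
        simp only [Polynomial.eval_sub, Polynomial.eval_X, Polynomial.eval_C]
        exact_mod_cast key j
      · intro b _ hb
        rw [Polynomial.eval_mul, Polynomial.eval_prod]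
        apply mul_eq_zero_of_right
        apply Finset.prod_eq_zero (i := j)
        · exact Finset.mem_erase.2 ⟨hb.symm, Finset.mem_univ _⟩
        · simp
      · intro hj
        exact absurd (Finset.mem_univ _) hj
  refine ⟨w, hpos, ?_, ?_⟩
  · have hc := congrArg (fun p => Polynomial.coeff p m) hP

    rw [Polynomial.finset_sum_coeff] at hc
    have h1 : ∀ j : Fin (m+1), (C ((w j : ℝ) : ℂ) * ∏ i ∈ univ.erase j, (X - C ((a i : ℝ) : ℂ))).coeff m
        = ((w j : ℝ) : ℂ) := by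
      intro j
      rw [Polynomial.coeff_C_mul]
      have h2 := weights_coeff (univ.erase j) (fun i => ((a i : ℝ) : ℂ))
      rw [Finset.card_erase_of_mem (Finset.mem_univ j), Finset.card_univ, Fintype.card_fin,
        Nat.add_sub_cancel] at h2
      rw [h2, mul_one]
    have h3 := weights_coeff (univ : Finset (Fin m)) (fun i => ((c i : ℝ) : ℂ))
    rw [Finset.card_univ, Fintype.card_fin] at h3
    rw [Finset.sum_congr rfl fun j _ => h1 j, h3] at hc
    exact_mod_cast hc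
  · intro x
    have hx := congrArg (Polynomial.eval x) hP
    rw [Polynomial.eval_finsetSum, Polynomial.eval_prod] at hx
    simp only [Polynomial.eval_mul, Polynomial.eval_prod, Polynomial.eval_sub, Polynomial.eval_X,
      Polynomial.eval_C] at hx
    exact hx

/-! ### weights_weak -/

theorem weights_weak (m : ℕ) (a : Fin (m + 1) → ℝ) (c : Fin m → ℝ)
    (h : ∀ k : Fin m, a k.succ ≤ c k ∧ c k ≤ a k.castSucc) :
    ∃ w : Fin (m + 1) → ℝ, (∀ j, 0 ≤ w j) ∧ ∑ j, w j = 1 ∧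
      ∀ x : ℂ, ∑ j, (w j : ℂ) * ∏ i ∈ univ.erase j, (x - a i) = ∏ k, (x - c k) := by
  classical
  let ε : ℕ → ℝ := fun N => 1 / ((N : ℝ) + 1)
  have hε : ∀ N, 0 < ε N := fun N => by simp only [ε]; positivity
  have hεlim : Filter.Tendsto ε Filter.atTop (nhds 0) := tendsto_one_div_add_atTop_nhds_zero_nat
  let aN : ℕ → Fin (m + 1) → ℝ := fun N j => a j + ε N * (2 * ((m : ℝ) - (j : ℕ)) + 1)
  let cN : ℕ → Fin m → ℝ := fun N k => c k + ε N * (2 * ((m : ℝ) - (k : ℕ)))
  have hstrict : ∀ N, ∀ k : Fin m, aN N k.succ < cN N k ∧ cN N k < aN N k.castSucc := by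
    intro N k
    obtain ⟨h1, h2⟩ := h k
    have hp := hε N
    constructor
    · simp only [aN, cN, Fin.val_succ]
      push_cast
      nlinarith
    · simp only [aN, cN, Fin.val_castSucc]
      nlinarith
  choose w hw0 hw1 hwx using fun N => weights m (aN N) (cN N) (hstrict N)
  have hmem : ∀ N, w N ∈ Set.Icc (0 : Fin (m + 1) → ℝ) 1 := by
    intro N
    refine ⟨fun j => (hw0 N j).le, fun j => ?_⟩
    show w N j ≤ 1
    rw [← hw1 N]
    exact Finset.single_le_sum (f := fun j => w N j) (fun i _ => (hw0 N i).le) (Finset.mem_univ j)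
  obtain ⟨w', hw', φ, hφ, hlim⟩ := isCompact_Icc.tendsto_subseq hmem
  have hlimj : ∀ j, Filter.Tendsto (fun n => w (φ n) j) Filter.atTop (nhds (w' j)) :=
    fun j => (tendsto_pi_nhds.1 hlim) j
  have hεφ : Filter.Tendsto (fun n => ε (φ n)) Filter.atTop (nhds 0) :=
    hεlim.comp hφ.tendsto_atTop
  have haN : ∀ j, Filter.Tendsto (fun n => aN (φ n) j) Filter.atTop (nhds (a j)) := by
    intro j
    have := (hεφ.mul_const (2 * ((m : ℝ) - (j : ℕ)) + 1)).const_add (a j)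
    simpa [aN] using this
  have hcN : ∀ k, Filter.Tendsto (fun n => cN (φ n) k) Filter.atTop (nhds (c k)) := by
    intro k
    have := (hεφ.mul_const (2 * ((m : ℝ) - (k : ℕ)))).const_add (c k)
    simpa [cN] using this
  refine ⟨w', fun j => hw'.1 j, ?_, ?_⟩
  · have h1 : Filter.Tendsto (fun n => ∑ j, w (φ n) j) Filter.atTop (nhds (∑ j, w' j)) :=
      tendsto_finsetSum _ fun j _ => hlimj j
    have h2 : (fun n => ∑ j, w (φ n) j) = fun _ => (1 : ℝ) := by
      funext n; exact hw1 (φ n)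
    rw [h2] at h1
    exact (tendsto_nhds_unique h1 tendsto_const_nhds)
  · intro x
    have hof : ∀ {f : ℕ → ℝ} {l : ℝ}, Filter.Tendsto f Filter.atTop (nhds l) →
        Filter.Tendsto (fun n => ((f n : ℝ) : ℂ)) Filter.atTop (nhds ((l : ℝ) : ℂ)) :=
      fun hf => (Complex.continuous_ofReal.tendsto _).comp hf
    have h1 : Filter.Tendsto (fun n => ∑ j, ((w (φ n) j : ℝ) : ℂ) *
        ∏ i ∈ univ.erase j, (x - ((aN (φ n) i : ℝ) : ℂ))) Filter.atTop
        (nhds (∑ j, ((w' j : ℝ) : ℂ) * ∏ i ∈ univ.erase j, (x - ((a i : ℝ) : ℂ)))) := by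
      refine tendsto_finsetSum _ fun j _ => (hof (hlimj j)).mul ?_
      exact tendsto_finsetProd _ fun i _ => (hof (haN i)).const_sub x
    have h2 : Filter.Tendsto (fun n => ∏ k, (x - ((cN (φ n) k : ℝ) : ℂ))) Filter.atTop
        (nhds (∏ k, (x - ((c k : ℝ) : ℂ)))) :=
      tendsto_finsetProd _ fun k _ => (hof (hcN k)).const_sub x
    have h3 : (fun n => ∑ j, ((w (φ n) j : ℝ) : ℂ) *
        ∏ i ∈ univ.erase j, (x - ((aN (φ n) i : ℝ) : ℂ))) =
        fun n => ∏ k, (x - ((cN (φ n) k : ℝ) : ℂ)) := by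
      funext n; exact hwx (φ n) x
    rw [h3] at h1
    exact tendsto_nhds_unique h1 h2

/-! ### exists_c_strict -/

theorem exists_c_strict (m : ℕ) (a w : Fin (m + 1) → ℝ) (ha : StrictAnti a) (hw : ∀ j, 0 < w j)
    (hw1 : ∑ j, w j = 1) :
    ∃ c : Fin m → ℝ, (∀ k : Fin m, a k.succ ≤ c k ∧ c k ≤ a k.castSucc) ∧
      ∀ x : ℂ, ∑ j, (w j : ℂ) * ∏ i ∈ univ.erase j, (x - a i) = ∏ k, (x - c k) := by
  classical
  set f : Polynomial ℝ := ∑ j, Polynomial.C (w j) * ∏ i ∈ univ.erase j, (Polynomial.X - Polynomial.C (a i)) with hf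
  have hev : ∀ j, f.eval (a j) = w j * ∏ i ∈ univ.erase j, (a j - a i) := by
    intro j
    rw [hf, Polynomial.eval_finset_sum, Finset.sum_eq_single j]
    · simp [Polynomial.eval_prod]
    · intro l _ hl
      rw [Polynomial.eval_mul, Polynomial.eval_prod]
      have : ∏ i ∈ univ.erase l, Polynomial.eval (a j) (Polynomial.X - Polynomial.C (a i)) = 0 := by
        apply Finset.prod_eq_zero (i := j)
        · simp [Ne.symm hl]
        · simp
      rw [this, mul_zero]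
    · intro h; exact absurd (mem_univ j) h
  have hneg : ∀ k : Fin m, f.eval (a k.castSucc) * f.eval (a k.succ) < 0 := by
    intro k
    rw [hev, hev]
    have hne : k.succ ≠ k.castSucc := by
      intro h; have := congrArg Fin.val h; simp at this
    have hlt : a k.succ < a k.castSucc := ha (by simp [Fin.lt_def])
    have e1 : ∏ i ∈ univ.erase k.castSucc, (a k.castSucc - a i)
        = (a k.castSucc - a k.succ) * ∏ i ∈ (univ.erase k.castSucc).erase k.succ, (a k.castSucc - a i) := by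
      rw [Finset.mul_prod_erase _ (fun i => a k.castSucc - a i)]
      simp [hne]
    have e2 : ∏ i ∈ univ.erase k.succ, (a k.succ - a i)
        = (a k.succ - a k.castSucc) * ∏ i ∈ (univ.erase k.castSucc).erase k.succ, (a k.succ - a i) := by
      rw [Finset.erase_right_comm, Finset.mul_prod_erase _ (fun i => a k.succ - a i)]
      simp [hne.symm]
    rw [e1, e2]
    have hpos : 0 < (∏ i ∈ (univ.erase k.castSucc).erase k.succ, (a k.castSucc - a i)) *
        ∏ i ∈ (univ.erase k.castSucc).erase k.succ, (a k.succ - a i) := by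
      rw [← Finset.prod_mul_distrib]
      apply Finset.prod_pos
      intro i hi
      simp only [Finset.mem_erase, Finset.mem_univ, and_true] at hi
      obtain ⟨h1, h2⟩ := hi
      have h1' : (i : ℕ) ≠ k + 1 := fun h => h1 (Fin.ext (by simpa using h))
      have h2' : (i : ℕ) ≠ k := fun h => h2 (Fin.ext (by simpa using h))
      rcases lt_or_gt_of_ne h2' with h | h
      · have q1 : a k.castSucc < a i := ha (by rw [Fin.lt_def]; simpa using h)
        have q2 : a k.succ < a i := ha (by rw [Fin.lt_def]; simp; omega)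
        nlinarith [mul_pos (sub_pos.2 q1) (sub_pos.2 q2)]
      · have q1 : a i < a k.castSucc := ha (by rw [Fin.lt_def]; simpa using h)
        have q2 : a i < a k.succ := ha (by rw [Fin.lt_def]; simp; omega)
        nlinarith [mul_pos (sub_pos.2 q1) (sub_pos.2 q2)]
    have hww := mul_pos (hw k.castSucc) (hw k.succ)
    have hd : 0 < (a k.castSucc - a k.succ) * (a k.castSucc - a k.succ) := mul_pos (sub_pos.2 hlt) (sub_pos.2 hlt)
    have := mul_pos (mul_pos hww hd) hpos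
    nlinarith [this]
  have hroot : ∀ k : Fin m, ∃ c : ℝ, a k.succ < c ∧ c < a k.castSucc ∧ f.eval c = 0 := by
    intro k
    have hlt : a k.succ < a k.castSucc := ha (by simp [Fin.lt_def])
    have hcont : ContinuousOn (fun x => f.eval x) (Set.Icc (a k.succ) (a k.castSucc)) :=
      f.continuous.continuousOn
    have h0 := hneg k
    rcases lt_or_ge 0 (f.eval (a k.succ)) with hp | hp
    · have hq : f.eval (a k.castSucc) < 0 := by
        by_contra hc
        push Not at hc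
        nlinarith [mul_nonneg hc hp.le]
      obtain ⟨c, hc, hc0⟩ := intermediate_value_Ioo' hlt.le hcont ⟨hq, hp⟩
      exact ⟨c, hc.1, hc.2, hc0⟩
    · have hp' : f.eval (a k.succ) < 0 := by
        rcases hp.lt_or_eq with h | h
        · exact h
        · rw [h, mul_zero] at h0; exact absurd h0 (lt_irrefl _)
      have hq : 0 < f.eval (a k.castSucc) := by
        by_contra hc
        push Not at hc
        nlinarith [mul_nonneg_of_nonpos_of_nonpos hc hp'.le]
      obtain ⟨c, hc, hc0⟩ := intermediate_value_Ioo hlt.le hcont ⟨hp', hq⟩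
      exact ⟨c, hc.1, hc.2, hc0⟩
  choose c hc1 hc2 hc3 using hroot
  refine ⟨c, fun k => ⟨(hc1 k).le, (hc2 k).le⟩, ?_⟩
  have hanti : StrictAnti c := by
    intro k l hkl
    have h1 : c l < a l.castSucc := hc2 l
    have h2 : a k.succ < c k := hc1 k
    have h3 : a l.castSucc ≤ a k.succ := ha.antitone (by
      rw [Fin.le_def]
      have := Fin.lt_def.1 hkl
      simp; omega)
    linarith
  set g : Polynomial ℝ := ∏ k, (Polynomial.X - Polynomial.C (c k)) with hg
  have hgm : g.Monic := Polynomial.monic_prod_of_monic _ _ (fun k _ => Polynomial.monic_X_sub_C _)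
  have hgd : g.degree = (m : WithBot ℕ) := by
    rw [hg, Polynomial.degree_prod]
    simp
  have hdeg : (f - g).degree < (m : WithBot ℕ) := by
    have hfg : f - g = ∑ j, Polynomial.C (w j) * (∏ i ∈ univ.erase j, (Polynomial.X - Polynomial.C (a i)) - g) := by
      simp only [mul_sub, Finset.sum_sub_distrib]
      rw [← Finset.sum_mul, ← map_sum, hw1]
      simp [hf]
    rw [hfg, ← Polynomial.mem_degreeLT]
    apply Submodule.sum_mem
    intro j _
    rw [← Polynomial.smul_eq_C_mul]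
    apply Submodule.smul_mem
    rw [Polynomial.mem_degreeLT]
    have hpm : (∏ i ∈ univ.erase j, (Polynomial.X - Polynomial.C (a i)) : Polynomial ℝ).Monic :=
      Polynomial.monic_prod_of_monic _ _ (fun k _ => Polynomial.monic_X_sub_C _)
    have hpd : (∏ i ∈ univ.erase j, (Polynomial.X - Polynomial.C (a i)) : Polynomial ℝ).degree = (m : WithBot ℕ) := by
      rw [Polynomial.degree_prod]
      simp
    rw [← hpd]
    apply Polynomial.degree_sub_lt
    · rw [hpd, hgd]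
    · exact hpm.ne_zero
    · rw [hpm.leadingCoeff, hgm.leadingCoeff]
  have hfg : f = g := by
    apply Polynomial.eq_of_degree_sub_lt_of_eval_index_eq (s := (univ : Finset (Fin m))) (v := c)
    · exact hanti.injective.injOn
    · simpa using hdeg
    · intro k _
      rw [hc3 k, hg, Polynomial.eval_prod]
      symm
      apply Finset.prod_eq_zero (mem_univ k)
      simp
  intro x
  have := congrArg (Polynomial.eval₂ Complex.ofRealHom x) hfg
  rw [hf, hg, Polynomial.eval₂_finset_sum, Polynomial.eval₂_finset_prod] at this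
  simpa [Polynomial.eval₂_mul, Polynomial.eval₂_finset_prod] using this

/-! ### exists_c -/

theorem exists_c (m : ℕ) (a w : Fin (m + 1) → ℝ) (ha : Antitone a) (hw : ∀ j, 0 ≤ w j)
    (hw1 : ∑ j, w j = 1) :
    ∃ c : Fin m → ℝ, (∀ k : Fin m, a k.succ ≤ c k ∧ c k ≤ a k.castSucc) ∧
      ∀ x : ℂ, ∑ j, (w j : ℂ) * ∏ i ∈ univ.erase j, (x - a i) = ∏ k, (x - c k) := by
  let E : ℕ → ℝ := fun N => 1 / ((N : ℝ) + 1)
  have hE0 : ∀ N, 0 < E N := fun N => by
    show (0:ℝ) < 1 / ((N : ℝ) + 1)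
    positivity
  have hE1 : ∀ N, E N ≤ 1 := fun N => by
    show 1 / ((N : ℝ) + 1) ≤ 1
    rw [div_le_one (by positivity)]
    have : (0:ℝ) ≤ N := Nat.cast_nonneg N
    linarith
  have hEt : Filter.Tendsto E Filter.atTop (nhds 0) := tendsto_one_div_add_atTop_nhds_zero_nat
  let A : ℕ → Fin (m + 1) → ℝ := fun N j => a j + E N * ((m : ℝ) - ((j : ℕ) : ℝ))
  let W : ℕ → Fin (m + 1) → ℝ := fun N j => (w j + E N) / (1 + ((m : ℝ) + 1) * E N)
  have hden : ∀ N, 0 < 1 + ((m : ℝ) + 1) * E N := fun N => by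
    have := hE0 N
    positivity
  have hA : ∀ N, StrictAnti (A N) := by
    intro N i j hij
    show a j + E N * ((m : ℝ) - ((j : ℕ) : ℝ)) < a i + E N * ((m : ℝ) - ((i : ℕ) : ℝ))
    have h1 := ha hij.le
    have h2 : ((i : ℕ) : ℝ) < ((j : ℕ) : ℝ) := by exact_mod_cast hij
    nlinarith [hE0 N]
  have hW : ∀ N j, 0 < W N j := by
    intro N j
    have h1 := hE0 N
    have h2 := hw j
    exact div_pos (by linarith) (hden N)
  have hW1 : ∀ N, ∑ j, W N j = 1 := by
    intro N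
    show ∑ j, (w j + E N) / (1 + ((m : ℝ) + 1) * E N) = 1
    rw [← Finset.sum_div, Finset.sum_add_distrib, hw1]
    rw [div_eq_one_iff_eq (hden N).ne']
    simp
  choose c hc hcx using fun N => exists_c_strict m (A N) (W N) (hA N) (hW N) (hW1 N)
  have hbox : ∀ N, c N ∈ Set.Icc (fun k : Fin m => a k.succ) (fun k : Fin m => a k.castSucc + m) := by
    intro N
    constructor
    · intro k
      refine le_trans ?_ (hc N k).1
      show a k.succ ≤ a k.succ + E N * ((m : ℝ) - ((k.succ : Fin (m + 1)) : ℕ))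
      have h1 : (((k.succ : Fin (m + 1)) : ℕ) : ℝ) ≤ m := by
        have : ((k.succ : Fin (m + 1)) : ℕ) ≤ m := Nat.lt_succ_iff.1 k.succ.isLt
        exact_mod_cast this
      nlinarith [hE0 N]
    · intro k
      refine le_trans (hc N k).2 ?_
      show a k.castSucc + E N * ((m : ℝ) - ((k.castSucc : Fin (m + 1)) : ℕ)) ≤ a k.castSucc + m
      have h1 : (0 : ℝ) ≤ (((k.castSucc : Fin (m + 1)) : ℕ) : ℝ) := Nat.cast_nonneg _
      have h2 : (0 : ℝ) ≤ (m : ℝ) := Nat.cast_nonneg _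
      nlinarith [hE0 N, hE1 N]
  obtain ⟨c₀, _, φ, hφ, hlim⟩ := (isCompact_Icc (a := (fun k : Fin m => a k.succ))
    (b := (fun k : Fin m => a k.castSucc + m))).tendsto_subseq hbox
  have hEφ : Filter.Tendsto (fun N => E (φ N)) Filter.atTop (nhds 0) := hEt.comp hφ.tendsto_atTop
  have hAlim : ∀ j, Filter.Tendsto (fun N => A (φ N) j) Filter.atTop (nhds (a j)) := by
    intro j
    have : Filter.Tendsto (fun N => a j + E (φ N) * ((m : ℝ) - ((j : ℕ) : ℝ))) Filter.atTop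
        (nhds (a j + 0 * ((m : ℝ) - ((j : ℕ) : ℝ)))) :=
      tendsto_const_nhds.add (hEφ.mul_const _)
    simpa using this
  have hWlim : ∀ j, Filter.Tendsto (fun N => W (φ N) j) Filter.atTop (nhds (w j)) := by
    intro j
    have : Filter.Tendsto (fun N => (w j + E (φ N)) / (1 + ((m : ℝ) + 1) * E (φ N))) Filter.atTop
        (nhds ((w j + 0) / (1 + ((m : ℝ) + 1) * 0))) :=
      (tendsto_const_nhds.add hEφ).div (tendsto_const_nhds.add (hEφ.const_mul _)) (by simp)
    simpa using this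
  have hclim : ∀ k, Filter.Tendsto (fun N => c (φ N) k) Filter.atTop (nhds (c₀ k)) := by
    intro k
    exact (tendsto_pi_nhds.1 hlim) k
  refine ⟨c₀, ?_, ?_⟩
  · intro k
    exact ⟨le_of_tendsto_of_tendsto' (hAlim k.succ) (hclim k) fun N => (hc (φ N) k).1,
      le_of_tendsto_of_tendsto' (hclim k) (hAlim k.castSucc) fun N => (hc (φ N) k).2⟩
  · intro x
    have hAc : ∀ j, Filter.Tendsto (fun N => ((A (φ N) j : ℝ) : ℂ)) Filter.atTop
        (nhds ((a j : ℝ) : ℂ)) := fun j =>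
      (Complex.continuous_ofReal.tendsto _).comp (hAlim j)
    have hWc : ∀ j, Filter.Tendsto (fun N => ((W (φ N) j : ℝ) : ℂ)) Filter.atTop
        (nhds ((w j : ℝ) : ℂ)) := fun j =>
      (Complex.continuous_ofReal.tendsto _).comp (hWlim j)
    have hcc : ∀ k, Filter.Tendsto (fun N => ((c (φ N) k : ℝ) : ℂ)) Filter.atTop
        (nhds ((c₀ k : ℝ) : ℂ)) := fun k =>
      (Complex.continuous_ofReal.tendsto _).comp (hclim k)
    have L : Filter.Tendsto (fun N => ∑ j, ((W (φ N) j : ℝ) : ℂ) *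
        ∏ i ∈ univ.erase j, (x - ((A (φ N) i : ℝ) : ℂ))) Filter.atTop
        (nhds (∑ j, (w j : ℂ) * ∏ i ∈ univ.erase j, (x - a i))) :=
      tendsto_finsetSum _ fun j _ => (hWc j).mul
        (tendsto_finsetProd _ fun i _ => tendsto_const_nhds.sub (hAc i))
    have R : Filter.Tendsto (fun N => ∏ k, (x - ((c (φ N) k : ℝ) : ℂ))) Filter.atTop
        (nhds (∏ k, (x - ((c₀ k : ℝ) : ℂ)))) :=
      tendsto_finsetProd _ fun k _ => tendsto_const_nhds.sub (hcc k)
    have heq : (fun N => ∑ j, ((W (φ N) j : ℝ) : ℂ) *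
        ∏ i ∈ univ.erase j, (x - ((A (φ N) i : ℝ) : ℂ)))
        = fun N => ∏ k, (x - ((c (φ N) k : ℝ) : ℂ)) := by
      funext N
      exact hcx (φ N) x
    rw [heq] at L
    exact tendsto_nhds_unique L R

/-! ### norm_id -/

theorem norm_id (m : ℕ) (a w : Fin (m + 1) → ℝ) (c : Fin m → ℝ)
    (h : ∀ x : ℂ, ∑ j, (w j : ℂ) * ∏ i ∈ univ.erase j, (x - a i) = ∏ k, (x - c k)) (τ : ℝ) :
    ‖∑ j, (w j : ℂ) * ∏ i ∈ univ.erase j, ((τ : ℂ) + Complex.I * a i)‖ ^ 2 =
      ∏ k, (τ ^ 2 + c k ^ 2) := by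
  have h1 : ∀ i, ((τ : ℂ) + Complex.I * a i) = (-Complex.I) * (Complex.I * τ - a i) := by
    intro i
    have hI : Complex.I * Complex.I = -1 := Complex.I_mul_I
    linear_combination (τ : ℂ) * hI
  have h2 : ∀ j : Fin (m + 1), ∏ i ∈ univ.erase j, ((τ : ℂ) + Complex.I * a i) =
      (-Complex.I) ^ m * ∏ i ∈ univ.erase j, (Complex.I * τ - a i) := by
    intro j
    rw [Finset.prod_congr rfl (fun i _ => h1 i), Finset.prod_mul_distrib, Finset.prod_const,
      Finset.card_erase_of_mem (Finset.mem_univ j), Finset.card_univ, Fintype.card_fin,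
      Nat.add_sub_cancel]
  have h3 : ∑ j, (w j : ℂ) * ∏ i ∈ univ.erase j, ((τ : ℂ) + Complex.I * a i) =
      (-Complex.I) ^ m * ∏ k, (Complex.I * τ - c k) := by
    rw [← h (Complex.I * τ), Finset.mul_sum]
    refine Finset.sum_congr rfl fun j _ => ?_
    rw [h2 j]
    ring
  rw [h3, norm_mul, norm_pow, norm_neg, Complex.norm_I, one_pow, one_mul, norm_prod,
    ← Finset.prod_pow]
  refine Finset.prod_congr rfl fun k _ => ?_
  rw [Complex.sq_norm, Complex.normSq_apply]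
  simp
  ring

/-! ### charpoly_of_det -/

theorem charpoly_of_det {n : ℕ} (N : Matrix (Fin n) (Fin n) ℂ) (s : Fin n → ℝ)
    (h : ∀ τ : ℝ, τ ≠ 0 → (((τ ^ 2 : ℝ) : ℂ) • (1 : Matrix (Fin n) (Fin n) ℂ) + N).det =
      ((∏ j, (τ ^ 2 + s j ^ 2) : ℝ) : ℂ)) :
    N.charpoly = ∏ j, (X - C (((s j) ^ 2 : ℝ) : ℂ)) := by
  classical
  refine Polynomial.eq_of_infinite_eval_eq _ _ ?_
  refine Set.infinite_of_injective_forall_mem (f := fun k : ℕ => -((((k : ℝ) + 1) ^ 2 : ℝ) : ℂ))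
    ?_ ?_
  · intro k l hkl
    have h1 : (((((k : ℝ) + 1) ^ 2 : ℝ)) : ℂ) = ((((l : ℝ) + 1) ^ 2 : ℝ) : ℂ) := neg_injective hkl
    have h2 : ((k : ℝ) + 1) ^ 2 = ((l : ℝ) + 1) ^ 2 := Complex.ofReal_injective h1
    have h3 : (k : ℝ) + 1 = (l : ℝ) + 1 := by
      have := (sq_eq_sq₀ (by positivity) (by positivity)).1 h2
      exact this
    exact_mod_cast add_right_cancel h3
  · intro k
    show eval _ _ = eval _ _
    have hτ : ((k : ℝ) + 1) ≠ 0 := by positivity
    set τ : ℝ := (k : ℝ) + 1 with hτd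
    have h1 := h τ hτ
    rw [Matrix.eval_charpoly, eval_prod]
    have e1 : (Matrix.scalar (Fin n)) (-((τ ^ 2 : ℝ) : ℂ)) - N =
        -(((τ ^ 2 : ℝ) : ℂ) • (1 : Matrix (Fin n) (Fin n) ℂ) + N) := by
      rw [Matrix.scalar_apply, ← Matrix.smul_one_eq_diagonal]
      rw [neg_smul]; abel
    rw [e1, Matrix.det_neg, h1, Fintype.card_fin]
    have e2 : ∀ j : Fin n, eval (-((τ ^ 2 : ℝ) : ℂ)) (X - C (((s j) ^ 2 : ℝ) : ℂ)) =
        (-1) * ((τ ^ 2 + s j ^ 2 : ℝ) : ℂ) := by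
      intro j
      simp only [eval_sub, eval_X, eval_C]
      push_cast; ring
    rw [Finset.prod_congr rfl (fun j _ => e2 j), Finset.prod_mul_distrib, Finset.prod_const,
      Finset.card_univ, Fintype.card_fin]
    push_cast
    rfl

/-! ### det_of_charpoly -/

theorem det_of_charpoly {n : ℕ} (N : Matrix (Fin n) (Fin n) ℂ) (s : Fin n → ℝ)
    (h : N.charpoly = ∏ j, (X - C (((s j) ^ 2 : ℝ) : ℂ))) (τ : ℝ) :
    (((τ ^ 2 : ℝ) : ℂ) • (1 : Matrix (Fin n) (Fin n) ℂ) + N).det =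
      ((∏ j, (τ ^ 2 + s j ^ 2) : ℝ) : ℂ) := by
  have h1 : (N.charpoly).eval (-((τ ^ 2 : ℝ) : ℂ)) =
      (Matrix.scalar (Fin n) (-((τ ^ 2 : ℝ) : ℂ)) - N).det := Matrix.eval_charpoly N _
  have h2 : (Matrix.scalar (Fin n) (-((τ ^ 2 : ℝ) : ℂ)) - N) =
      -(((τ ^ 2 : ℝ) : ℂ) • (1 : Matrix (Fin n) (Fin n) ℂ) + N) := by
    ext i j
    by_cases hij : i = j
    · subst hij
      simp [Matrix.scalar_apply]
      ring
    · simp [Matrix.scalar_apply, hij]
  have h3 : (N.charpoly).eval (-((τ ^ 2 : ℝ) : ℂ)) =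
      (-1) ^ n * ((∏ j, (τ ^ 2 + s j ^ 2) : ℝ) : ℂ) := by
    rw [h, Polynomial.eval_prod]
    have : ∀ j : Fin n, (X - C (((s j) ^ 2 : ℝ) : ℂ)).eval (-((τ ^ 2 : ℝ) : ℂ)) =
        (-1) * (((τ ^ 2 + s j ^ 2 : ℝ)) : ℂ) := by
      intro j
      simp only [eval_sub, eval_X, eval_C]
      push_cast
      ring
    rw [Finset.prod_congr rfl (fun j _ => this j), Finset.prod_mul_distrib]
    simp
  rw [h2, Matrix.det_neg, h3] at h1
  have h4 : ((-1 : ℂ) ^ n) ≠ 0 := pow_ne_zero _ (by norm_num)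
  rw [Fintype.card_fin] at h1
  exact (mul_left_cancel₀ h4 h1).symm

/-! ### basis -/

theorem basis_perm {n : ℕ} (f g : Fin n → ℝ)
    (h : (∏ j, (X - C ((f j : ℝ) : ℂ)) : ℂ[X]) = ∏ j, (X - C ((g j : ℝ) : ℂ))) :
    ∃ σ : Fin n ≃ Fin n, ∀ j, g (σ j) = f j := by
  classical
  have hr : ∀ f : Fin n → ℝ, (∏ j, (X - C ((f j : ℝ) : ℂ)) : ℂ[X]).roots =
      (Finset.univ.val.map fun j => ((f j : ℝ) : ℂ)) := by
    intro f
    have h1 : (∏ j, (X - C ((f j : ℝ) : ℂ)) : ℂ[X]) =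
        ((Finset.univ.val.map fun j => ((f j : ℝ) : ℂ)).map fun a => X - C a).prod := by
      rw [Multiset.map_map]
      rfl
    rw [h1, Polynomial.roots_multiset_prod_X_sub_C]
  have hm : (Finset.univ.val.map fun j => ((f j : ℝ) : ℂ)) =
      (Finset.univ.val.map fun j => ((g j : ℝ) : ℂ)) := by
    rw [← hr f, ← hr g, h]
  have hcard : ∀ c : ℝ, Fintype.card {j // f j = c} = Fintype.card {j // g j = c} := by
    intro c
    have h1 := congrArg (Multiset.count (c : ℂ)) hm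
    rw [Multiset.count_map, Multiset.count_map] at h1
    rw [Fintype.card_subtype, Fintype.card_subtype]
    have h2 : ∀ f : Fin n → ℝ, (Multiset.filter (fun a => (c : ℂ) = ((f a : ℝ) : ℂ))
        Finset.univ.val).card = (Finset.univ.filter fun j => f j = c).card := by
      intro f
      have : (Finset.univ.filter fun j => f j = c) =
          (Finset.univ.filter fun j => (c : ℂ) = ((f j : ℝ) : ℂ)) := by
        ext j
        simp only [Finset.mem_filter, Finset.mem_univ, true_and]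
        constructor
        · intro h; rw [h]
        · intro h; exact (Complex.ofReal_injective h).symm
      rw [this]
      rfl
    rw [h2, h2] at h1
    exact h1
  have e : ∀ c : ℝ, {j // f j = c} ≃ {j // g j = c} := fun c => Fintype.equivOfCardEq (hcard c)
  exact ⟨Equiv.ofFiberEquiv e, fun j => Equiv.ofFiberEquiv_map e j⟩

theorem basis {n : ℕ} (H : Matrix (Fin n) (Fin n) ℂ) (a : Fin n → ℝ) (hH : H.IsHermitian)
    (hc : H.charpoly = ∏ j, (X - C ((a j : ℝ) : ℂ))) :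
    ∃ U : Matrix (Fin n) (Fin n) ℂ, Uᴴ * U = 1 ∧ U * Uᴴ = 1 ∧
      H * U = U * Matrix.diagonal (fun j => ((a j : ℝ) : ℂ)) := by
  obtain ⟨σ, hσ⟩ := basis_perm a hH.eigenvalues (by
    rw [← hc]
    exact hH.charpoly_eq)
  set E : Matrix (Fin n) (Fin n) ℂ := (hH.eigenvectorUnitary : Matrix (Fin n) (Fin n) ℂ) with hE
  have h1 : Eᴴ * E = 1 := by
    have := Unitary.coe_star_mul_self hH.eigenvectorUnitary
    simpa [Matrix.star_eq_conjTranspose] using this
  have h2 : E * Eᴴ = 1 := by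
    have := Unitary.coe_mul_star_self hH.eigenvectorUnitary
    simpa [Matrix.star_eq_conjTranspose] using this
  refine ⟨E.submatrix id σ, ?_, ?_, ?_⟩
  · rw [Matrix.conjTranspose_submatrix]
    have h3 : (Eᴴ.submatrix σ id) * (E.submatrix id σ) = (Eᴴ * E).submatrix σ σ := by
      ext i j
      simp [Matrix.mul_apply, Matrix.submatrix_apply]
    rw [h3, h1]
    ext i j
    simp [Matrix.submatrix_apply, Matrix.one_apply]
  · rw [Matrix.conjTranspose_submatrix, Matrix.submatrix_mul_equiv, h2]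
    ext i j
    simp [Matrix.one_apply]
  · ext i j
    rw [Matrix.mul_diagonal, Matrix.mul_apply]
    simp only [Matrix.submatrix_apply, id]
    have h3 := congrFun (hH.mulVec_eigenvectorBasis (σ j)) i
    rw [Matrix.mulVec, dotProduct] at h3
    have h4 : ∀ i j, E i j = (hH.eigenvectorBasis j) i := fun i j =>
      hH.eigenvectorUnitary_apply i j
    simp only [h4]
    rw [h3, ← hσ j]
    simp [Pi.smul_apply, mul_comm]

/-! ### normal_form -/

theorem normal_form (m : ℕ) (a : Fin (m + 1) → ℝ) (β : ℝ)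
    (A B : Matrix (Fin (m + 1)) (Fin (m + 1)) ℂ) (hA : IsEig A a)
    (hB : IsEig B (fun j => if j = 0 then β else 0)) :
    ∃ (u : Fin (m + 1) → ℝ) (W : Matrix (Fin (m + 1)) (Fin (m + 1)) ℂ), ∑ j, u j ^ 2 = 1 ∧
      Wᴴ * W = 1 ∧ W * Wᴴ = 1 ∧ A + Complex.I • B = W * MM a u β * Wᴴ := by
  obtain ⟨U, hU1, hU2, hU3⟩ := basis A a hA.1 hA.2.2
  obtain ⟨V, hV1, hV2, hV3⟩ := basis B _ hB.1 hB.2.2
  have hAe : A = U * Matrix.diagonal (fun j => ((a j : ℝ) : ℂ)) * Uᴴ := by
    rw [← hU3, Matrix.mul_assoc, hU2, Matrix.mul_one]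
  obtain ⟨v, hvdef⟩ : ∃ v : Fin (m + 1) → ℂ, v = fun i => V i 0 := ⟨_, rfl⟩
  have hBe : B = (β : ℂ) • Matrix.vecMulVec v (star v) := by
    have h1 : B = V * Matrix.diagonal (fun j => (((if j = 0 then β else 0 : ℝ)) : ℂ)) * Vᴴ := by
      rw [← hV3, Matrix.mul_assoc, hV2, Matrix.mul_one]
    rw [h1]
    ext i j
    rw [Matrix.mul_apply, Finset.sum_eq_single 0]
    · rw [Matrix.mul_diagonal, Matrix.conjTranspose_apply, Matrix.smul_apply,
        Matrix.vecMulVec_apply, hvdef]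
      simp only [if_true, Pi.star_apply, smul_eq_mul]
      ring
    · intro k _ hk
      rw [Matrix.mul_diagonal]
      simp [hk]
    · intro h
      exact absurd (Finset.mem_univ _) h
  have hv : star v ⬝ᵥ v = 1 := by
    have h1 := congrFun (congrFun hV1 0) 0
    rw [Matrix.mul_apply, Matrix.one_apply_eq] at h1
    rw [dotProduct, ← h1, hvdef]
    rfl
  obtain ⟨z, hzdef⟩ : ∃ z : Fin (m + 1) → ℂ, z = Uᴴ *ᵥ v := ⟨_, rfl⟩
  have hUz : U *ᵥ z = v := by
    rw [hzdef, Matrix.mulVec_mulVec, hU2, Matrix.one_mulVec]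
  have hz : star z ⬝ᵥ z = 1 := by
    have h1 : star z = star v ᵥ* U := by
      rw [hzdef, Matrix.star_mulVec, Matrix.conjTranspose_conjTranspose]
    rw [h1, ← Matrix.dotProduct_mulVec, hUz, hv]
  obtain ⟨p, hpdef⟩ : ∃ p : Fin (m + 1) → ℂ,
    p = fun j => if z j = 0 then 1 else z j / ((‖z j‖ : ℝ) : ℂ) := ⟨_, rfl⟩
  have hp1 : ∀ j, p j * ((‖z j‖ : ℝ) : ℂ) = z j := by
    intro j
    rw [hpdef]
    by_cases h : z j = 0
    · simp [h]
    · have h2 : ((‖z j‖ : ℝ) : ℂ) ≠ 0 := by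
        rw [Complex.ofReal_ne_zero]
        exact norm_ne_zero_iff.mpr h
      simp only [h, if_false]
      rw [div_mul_cancel₀ _ h2]
  have hpn : ∀ j, ‖p j‖ = 1 := by
    intro j
    rw [hpdef]
    by_cases h : z j = 0
    · simp [h]
    · have h2 : ‖z j‖ ≠ 0 := norm_ne_zero_iff.mpr h
      simp only [h, if_false]
      rw [norm_div, Complex.norm_real, norm_norm, div_self h2]
  have hps : ∀ j, star (p j) * p j = 1 := by
    intro j
    have := Complex.conj_mul' (p j)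
    rw [hpn j] at this
    simpa using this
  have hd1 : (Matrix.diagonal p)ᴴ * Matrix.diagonal p = 1 := by
    rw [Matrix.diagonal_conjTranspose, Matrix.diagonal_mul_diagonal, ← Matrix.diagonal_one]
    congr 1
    funext j
    exact hps j
  have hd2 : Matrix.diagonal p * (Matrix.diagonal p)ᴴ = 1 := by
    rw [Matrix.diagonal_conjTranspose, Matrix.diagonal_mul_diagonal, ← Matrix.diagonal_one]
    congr 1
    funext j
    rw [mul_comm]
    exact hps j
  refine ⟨fun j => ‖z j‖, U * Matrix.diagonal p, ?_, ?_, ?_, ?_⟩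
  · have h1 : ((∑ j, ‖z j‖ ^ 2 : ℝ) : ℂ) = 1 := by
      rw [← hz, dotProduct]
      push_cast
      apply Finset.sum_congr rfl
      intro j _
      exact (Complex.conj_mul' (z j)).symm
    exact_mod_cast h1
  · rw [Matrix.conjTranspose_mul, Matrix.mul_assoc, ← Matrix.mul_assoc Uᴴ, hU1, Matrix.one_mul,
      hd1]
  · rw [Matrix.conjTranspose_mul, Matrix.mul_assoc, ← Matrix.mul_assoc (Matrix.diagonal p), hd2,
      Matrix.one_mul, hU2]
  · obtain ⟨uc, hucdef⟩ : ∃ uc : Fin (m + 1) → ℂ, uc = fun j => ((‖z j‖ : ℝ) : ℂ) := ⟨_, rfl⟩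
    have hMM : MM a (fun j => ‖z j‖) β = Matrix.diagonal (fun j => ((a j : ℝ) : ℂ)) +
        Complex.I • ((β : ℂ) • Matrix.vecMulVec uc uc) := by
      unfold MM
      congr 2
      ext i j
      rw [Matrix.of_apply, Matrix.smul_apply, Matrix.vecMulVec_apply, hucdef]
      push_cast
      simp only [smul_eq_mul]
      ring
    have hWu : (U * Matrix.diagonal p) *ᵥ uc = v := by
      rw [← Matrix.mulVec_mulVec]
      have : Matrix.diagonal p *ᵥ uc = z := by
        funext j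
        rw [Matrix.mulVec_diagonal, hucdef]
        exact hp1 j
      rw [this, hUz]
    have hstar : star uc = uc := by
      funext j
      rw [hucdef]
      exact Complex.conj_ofReal _
    have hWs : uc ᵥ* (U * Matrix.diagonal p)ᴴ = star v := by
      rw [← hWu, Matrix.star_mulVec, hstar]
    rw [hMM, Matrix.mul_add, Matrix.add_mul, Matrix.mul_smul, Matrix.smul_mul, Matrix.mul_smul,
      Matrix.smul_mul, Matrix.mul_vecMulVec, Matrix.vecMulVec_mul, hWu, hWs, ← hBe]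
    congr 1
    rw [Matrix.conjTranspose_mul, Matrix.mul_assoc U, Matrix.mul_assoc U, ← Matrix.mul_assoc _ _ Uᴴ,
      Matrix.diagonal_conjTranspose, Matrix.diagonal_mul_diagonal, Matrix.diagonal_mul_diagonal]
    rw [← Matrix.mul_assoc]
    have h5 : (fun i => p i * ((a i : ℝ) : ℂ) * star p i) = fun j => ((a j : ℝ) : ℂ) := by
      funext j
      have := hps j
      rw [Pi.star_apply, mul_comm (p j), mul_assoc, mul_comm (p j), this, mul_one]
    rw [h5]
    exact hAe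

/-! ### eigA -/

theorem eigA {n : ℕ} (a : Fin n → ℝ) (ha : Antitone a) :
    IsEig (Matrix.diagonal (fun j => ((a j : ℝ) : ℂ))) a := by
  refine ⟨?_, ha, ?_⟩
  · rw [Matrix.IsHermitian, Matrix.diagonal_conjTranspose]
    congr 1
    funext j
    simp
  · exact Matrix.charpoly_diagonal _

/-! ### eigB -/

theorem eigB (m : ℕ) (u : Fin (m + 1) → ℝ) (β : ℝ) (hβ : 0 < β) (hu : ∑ j, u j ^ 2 = 1) :
    IsEig (Matrix.of (fun i j => ((β * u i * u j : ℝ) : ℂ))) (fun j => if j = 0 then β else 0) := by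
  refine ⟨?_, ?_, ?_⟩
  · ext i j
    simp only [Matrix.conjTranspose_apply, Matrix.of_apply, RCLike.star_def, Complex.conj_ofReal]
    congr 1; ring
  · intro i j hij
    dsimp only
    by_cases hi : i = 0
    · subst hi
      by_cases hj : j = 0
      · simp [hj]
      · simp [hj, hβ.le]
    · have hj : j ≠ 0 := by
        rintro rfl
        exact hi (le_antisymm hij (Fin.zero_le _))
      simp [hi, hj]
  · have h1 : (Matrix.of (fun i j => ((β * u i * u j : ℝ) : ℂ)) : Matrix (Fin (m+1)) (Fin (m+1)) ℂ)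
        = Matrix.vecMulVec (fun i => (β : ℂ) * (u i : ℂ)) (fun j => (u j : ℂ)) := by
      ext i j
      simp [Matrix.vecMulVec_apply]
    rw [h1, Matrix.charpoly_vecMulVec, Fin.prod_univ_succ]
    have h2 : (fun i => (β : ℂ) * (u i : ℂ)) ⬝ᵥ (fun j => (u j : ℂ)) = (β : ℂ) := by
      have : ((∑ j, u j ^ 2 : ℝ) : ℂ) = 1 := by rw [hu]; simp
      simp only [dotProduct]
      push_cast at this
      calc ∑ i, (β : ℂ) * (u i : ℂ) * (u i : ℂ) = (β : ℂ) * ∑ i, (u i : ℂ) ^ 2 := by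
            rw [Finset.mul_sum]; refine Finset.sum_congr rfl fun i _ => by ring
        _ = β := by rw [this, mul_one]
    rw [h2]
    simp [Fin.succ_ne_zero, Polynomial.smul_eq_C_mul]
    ring

/-! ### poly_of_sq -/

theorem poly_of_sq (m : ℕ) (a s : Fin (m + 1) → ℝ) (c : Fin m → ℝ) (β : ℝ)
    (h : ∀ τ : ℝ, τ ≠ 0 → ∏ j, (τ ^ 2 + s j ^ 2) =
        ∏ j, (τ ^ 2 + a j ^ 2) + β ^ 2 * ∏ k, (τ ^ 2 + c k ^ 2)) (t : ℝ) :
    ∏ j, (t + s j ^ 2) = ∏ j, (t + a j ^ 2) + β ^ 2 * ∏ k, (t + c k ^ 2) := by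
  have hP : (∏ j, (X + C (s j ^ 2)) : ℝ[X]) =
      ∏ j, (X + C (a j ^ 2)) + C (β ^ 2) * ∏ k, (X + C (c k ^ 2)) := by
    apply Polynomial.eq_of_infinite_eval_eq
    refine Set.Infinite.mono ?_ (Set.Ioi_infinite (0:ℝ))
    intro x hx
    have hx' : (0:ℝ) < x := hx
    have h1 := h (Real.sqrt x) (Real.sqrt_pos.mpr hx').ne'
    rw [Real.sq_sqrt hx'.le] at h1
    simp only [Set.mem_setOf_eq, Polynomial.eval_prod, Polynomial.eval_add, Polynomial.eval_X,
      Polynomial.eval_C, Polynomial.eval_mul]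
    exact h1
  have h2 := congrArg (Polynomial.eval t) hP
  simpa only [Polynomial.eval_prod, Polynomial.eval_add, Polynomial.eval_X,
      Polynomial.eval_C, Polynomial.eval_mul] using h2

theorem result (m : ℕ) (a s : Fin (m + 1) → ℝ) (β : ℝ) (hβ : 0 < β) (ha : Antitone a)
    (hs : Antitone s) (hs0 : ∀ j, 0 ≤ s j) :
    Realizable a (fun j => if j = 0 then β else 0) s ↔
      ∃ c : Fin m → ℝ, (∀ k : Fin m, a k.succ ≤ c k ∧ c k ≤ a k.castSucc) ∧
        ∀ t : ℝ, ∏ j, (t + s j ^ 2) = ∏ j, (t + a j ^ 2) + β ^ 2 * ∏ k, (t + c k ^ 2) := by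
  constructor
  · rintro ⟨A, B, hA, hB, hS⟩
    obtain ⟨u, W, hu, hW, hW', hM⟩ := normal_form m a β A B hA hB
    obtain ⟨c, hc, hcx⟩ := exists_c m a (fun j => u j ^ 2) ha (fun j => sq_nonneg _) hu
    refine ⟨c, hc, ?_⟩
    have key : ∀ τ : ℝ, τ ≠ 0 → ∏ j, (τ ^ 2 + s j ^ 2) =
        ∏ j, (τ ^ 2 + a j ^ 2) + β ^ 2 * ∏ k, (τ ^ 2 + c k ^ 2) := by
      intro τ hτ
      have h1 := det_of_charpoly _ s hS.2.2 τ
      have h2 := det_id a u β τ hτ
      have h3 := norm_id m a (fun j => u j ^ 2) c hcx τ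
      rw [h3] at h2
      have h4 : ((τ ^ 2 : ℝ) : ℂ) • (1 : Matrix (Fin (m + 1)) (Fin (m + 1)) ℂ) +
          (A + Complex.I • B)ᴴ * (A + Complex.I • B) =
          W * (((τ ^ 2 : ℝ) : ℂ) • 1 + (MM a u β)ᴴ * MM a u β) * Wᴴ := by
        rw [hM, Matrix.conjTranspose_mul, Matrix.conjTranspose_mul, Matrix.conjTranspose_conjTranspose]
        have e1 : W * ((MM a u β)ᴴ * Wᴴ) * (W * MM a u β * Wᴴ) =
            W * ((MM a u β)ᴴ * MM a u β) * Wᴴ := by
          calc W * ((MM a u β)ᴴ * Wᴴ) * (W * MM a u β * Wᴴ)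
              = W * (MM a u β)ᴴ * (Wᴴ * W) * (MM a u β * Wᴴ) := by
                simp only [Matrix.mul_assoc]
            _ = W * ((MM a u β)ᴴ * MM a u β) * Wᴴ := by
                rw [hW]; simp only [Matrix.mul_assoc, Matrix.one_mul]
        rw [e1, Matrix.mul_add, Matrix.add_mul]
        congr 1
        rw [Matrix.mul_smul, Matrix.mul_one, Matrix.smul_mul, hW']
      rw [h4, Matrix.det_mul, Matrix.det_mul, h2] at h1
      have h5 : W.det * Wᴴ.det = 1 := by
        rw [← Matrix.det_mul, hW', Matrix.det_one]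
      have h6 : ((∏ j, (τ ^ 2 + a j ^ 2) + β ^ 2 * ∏ k, (τ ^ 2 + c k ^ 2) : ℝ) : ℂ) =
          ((∏ j, (τ ^ 2 + s j ^ 2) : ℝ) : ℂ) := by
        rw [← h1]
        linear_combination (-((∏ j, (τ ^ 2 + a j ^ 2) + β ^ 2 * ∏ k, (τ ^ 2 + c k ^ 2) : ℝ) : ℂ)) * h5
      exact_mod_cast h6.symm
    exact poly_of_sq m a s c β key
  · rintro ⟨c, hc, hid⟩
    obtain ⟨w, hw0, hw1, hwx⟩ := weights_weak m a c hc
    have hsq : ∀ j, (Real.sqrt (w j)) ^ 2 = w j := fun j => Real.sq_sqrt (hw0 j)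
    refine ⟨_, _, eigA a ha, eigB m (fun j => Real.sqrt (w j)) β hβ ?_, hs, hs0, ?_⟩
    · simp only [hsq, hw1]
    · apply charpoly_of_det
      intro τ hτ
      have h2 := det_id a (fun j => Real.sqrt (w j)) β τ hτ
      have h3 := norm_id m a w c hwx τ
      simp only [hsq] at h2
      rw [h3, ← hid (τ ^ 2)] at h2
      exact h2

end Pool.Agent.Results.MP_08a990_an.RankOne
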