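import Mathlib

set_option autoImplicit false

open Matrix Polynomial
open scoped ComplexConjugate

namespace Pool.Agent.Results.MP_08a990_an.TwoByTwo

/-- `(a,b,s)` is realizable: there are Hermitian `A`, `B` with eigenvalues `a`, `b` (roots of the
characteristic polynomial, with multiplicity) such that the eigenvalues of
`(A + iB)ᴴ (A + iB)` are the squares of the `s j`. -/
def Realizable {n : ℕ} (a b s : Fin n → ℝ) : Prop :=
  ∃ A B : Matrix (Fin n) (Fin n) ℂ, A.IsHermitian ∧ B.IsHermitian ∧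
    A.charpoly = ∏ j, (X - C ((a j : ℝ) : ℂ)) ∧
    B.charpoly = ∏ j, (X - C ((b j : ℝ) : ℂ)) ∧
    ((A + Complex.I • B)ᴴ * (A + Complex.I • B)).charpoly =
      ∏ j, (X - C (((s j) ^ 2 : ℝ) : ℂ))

lemma charpoly_iff (M : Matrix (Fin 2) (Fin 2) ℂ) (c d : ℂ) :
    M.charpoly = (X - C c) * (X - C d) ↔ M.trace = c + d ∧ M.det = c * d := by
  rw [Matrix.charpoly_fin_two]
  constructor
  · intro h
    have h0 := congrArg (fun p => Polynomial.coeff p 0) h
    have h1 := congrArg (fun p => Polynomial.eval 1 p) h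
    have e0 := congrArg (fun p => Polynomial.eval 0 p) h
    simp at h1 e0
    constructor
    · linear_combination e0 - h1
    · linear_combination e0
  · rintro ⟨h1, h2⟩
    rw [h1, h2]
    simp only [map_add, map_mul]
    ring

/-- entries of a Hermitian matrix -/
lemma herm_entries {A : Matrix (Fin 2) (Fin 2) ℂ} (hA : A.IsHermitian) :
    ∃ (p q : ℝ) (u : ℂ), A = !![(p : ℂ), u; conj u, (q : ℂ)] := by
  refine ⟨(A 0 0).re, (A 1 1).re, A 0 1, ?_⟩
  have h00 : conj (A 0 0) = A 0 0 := hA.apply 0 0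
  have h11 : conj (A 1 1) = A 1 1 := hA.apply 1 1
  have h10 : conj (A 0 1) = A 1 0 := hA.apply 1 0
  ext i j
  fin_cases i <;> fin_cases j
  · simpa using (Complex.conj_eq_iff_re.1 h00).symm
  · simp
  · simp [h10]
  · simpa using (Complex.conj_eq_iff_re.1 h11).symm

lemma trace_det (p q r t : ℝ) (u v : ℂ) :
    let A : Matrix (Fin 2) (Fin 2) ℂ := !![(p : ℂ), u; conj u, (q : ℂ)]
    let B : Matrix (Fin 2) (Fin 2) ℂ := !![(r : ℂ), v; conj v, (t : ℂ)]
    ((A + Complex.I • B)ᴴ * (A + Complex.I • B)).trace =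
      ((p ^ 2 + q ^ 2 + 2 * (u.re ^ 2 + u.im ^ 2) + r ^ 2 + t ^ 2 +
        2 * (v.re ^ 2 + v.im ^ 2) : ℝ) : ℂ) ∧
    ((A + Complex.I • B)ᴴ * (A + Complex.I • B)).det =
      (((p * q - (u.re ^ 2 + u.im ^ 2) - (r * t - (v.re ^ 2 + v.im ^ 2))) ^ 2 +
        (p * t + q * r - 2 * (u.re * v.re + u.im * v.im)) ^ 2 : ℝ) : ℂ) := by
  intro A B
  constructor
  · apply Complex.ext
    · simp [A, B, Matrix.trace_fin_two, Matrix.mul_apply, Fin.sum_univ_two, pow_two]
      ring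
    · simp [A, B, Matrix.trace_fin_two, Matrix.mul_apply, Fin.sum_univ_two, pow_two]
      ring
  · have hdet : (A + Complex.I • B).det =
        ((p * q - (u.re ^ 2 + u.im ^ 2) - (r * t - (v.re ^ 2 + v.im ^ 2)) : ℝ) : ℂ) +
        ((p * t + q * r - 2 * (u.re * v.re + u.im * v.im) : ℝ) : ℂ) * Complex.I := by
      rw [Matrix.det_fin_two]
      apply Complex.ext
      · simp [A, B, pow_two]
        ring
      · simp [A, B, pow_two]
        ring
    rw [Matrix.det_mul, Matrix.det_conjTranspose, hdet]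
    apply Complex.ext
    · simp [pow_two]
      ring
    · simp [pow_two]
      ring

/-- existence of the mixed term -/
lemma core (a1 a2 b1 b2 s1 s2 : ℝ) : Realizable ![a1, a2] ![b1, b2] ![s1, s2] ↔
    ∃ p q r t : ℝ, ∃ u v : ℂ,
      p + q = a1 + a2 ∧ p * q - (u.re ^ 2 + u.im ^ 2) = a1 * a2 ∧
      r + t = b1 + b2 ∧ r * t - (v.re ^ 2 + v.im ^ 2) = b1 * b2 ∧
      s1 ^ 2 + s2 ^ 2 = a1 ^ 2 + a2 ^ 2 + b1 ^ 2 + b2 ^ 2 ∧
      s1 ^ 2 * s2 ^ 2 = (a1 * a2 - b1 * b2) ^ 2 +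
        (p * t + q * r - 2 * (u.re * v.re + u.im * v.im)) ^ 2 := by
  unfold Realizable
  simp only [Fin.prod_univ_two, Matrix.cons_val_zero, Matrix.cons_val_one, charpoly_iff]
  constructor
  · rintro ⟨A, B, hA, hB, ⟨hA1, hA2⟩, ⟨hB1, hB2⟩, ⟨hS1, hS2⟩⟩
    obtain ⟨p, q, u, rfl⟩ := herm_entries hA
    obtain ⟨r, t, v, rfl⟩ := herm_entries hB
    obtain ⟨h1, h2⟩ := trace_det p q r t u v
    rw [h1] at hS1
    rw [h2] at hS2
    have eS1 : p ^ 2 + q ^ 2 + 2 * (u.re ^ 2 + u.im ^ 2) + r ^ 2 + t ^ 2 +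
        2 * (v.re ^ 2 + v.im ^ 2) = s1 ^ 2 + s2 ^ 2 := by exact_mod_cast hS1
    have eS2 : (p * q - (u.re ^ 2 + u.im ^ 2) - (r * t - (v.re ^ 2 + v.im ^ 2))) ^ 2 +
        (p * t + q * r - 2 * (u.re * v.re + u.im * v.im)) ^ 2 = s1 ^ 2 * s2 ^ 2 := by
      exact_mod_cast hS2
    have eA1 : p + q = a1 + a2 := by
      have := congrArg Complex.re hA1
      simpa [Matrix.trace_fin_two] using this
    have eB1 : r + t = b1 + b2 := by
      have := congrArg Complex.re hB1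
      simpa [Matrix.trace_fin_two] using this
    have eA2 : p * q - (u.re ^ 2 + u.im ^ 2) = a1 * a2 := by
      have := congrArg Complex.re hA2
      rw [Matrix.det_fin_two] at this
      simp at this
      linear_combination this
    have eB2 : r * t - (v.re ^ 2 + v.im ^ 2) = b1 * b2 := by
      have := congrArg Complex.re hB2
      rw [Matrix.det_fin_two] at this
      simp at this
      linear_combination this
    refine ⟨p, q, r, t, u, v, eA1, eA2, eB1, eB2, ?_, ?_⟩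
    · rw [← eS1]
      have k1 : (p + q) ^ 2 = (a1 + a2) ^ 2 := by rw [eA1]
      have k2 : (r + t) ^ 2 = (b1 + b2) ^ 2 := by rw [eB1]
      linear_combination k1 + k2 - 2 * eA2 - 2 * eB2
    · rw [← eS2, eA2, eB2]
  · rintro ⟨p, q, r, t, u, v, eA1, eA2, eB1, eB2, eS1, eS2⟩
    refine ⟨!![(p : ℂ), u; conj u, (q : ℂ)], !![(r : ℂ), v; conj v, (t : ℂ)], ?_, ?_, ?_, ?_, ?_⟩
    · ext i j
      fin_cases i <;> fin_cases j <;> simp
    · ext i j
      fin_cases i <;> fin_cases j <;> simp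
    · constructor
      · rw [Matrix.trace_fin_two]
        simp only [Matrix.of_apply, Matrix.cons_val', Matrix.cons_val_zero, Matrix.cons_val_one,
          Matrix.cons_val_fin_one]
        exact_mod_cast eA1
      · rw [Matrix.det_fin_two]
        have : (p : ℂ) * q - u * conj u = ((p * q - (u.re ^ 2 + u.im ^ 2) : ℝ) : ℂ) := by
          apply Complex.ext
          · simp [pow_two]
          · simp [pow_two]; ring
        simp only [Matrix.of_apply, Matrix.cons_val', Matrix.cons_val_zero, Matrix.cons_val_one,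
          Matrix.cons_val_fin_one]
        rw [this, eA2]
        push_cast
        ring
    · constructor
      · rw [Matrix.trace_fin_two]
        simp only [Matrix.of_apply, Matrix.cons_val', Matrix.cons_val_zero, Matrix.cons_val_one,
          Matrix.cons_val_fin_one]
        exact_mod_cast eB1
      · rw [Matrix.det_fin_two]
        have : (r : ℂ) * t - v * conj v = ((r * t - (v.re ^ 2 + v.im ^ 2) : ℝ) : ℂ) := by
          apply Complex.ext
          · simp [pow_two]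
          · simp [pow_two]; ring
        simp only [Matrix.of_apply, Matrix.cons_val', Matrix.cons_val_zero, Matrix.cons_val_one,
          Matrix.cons_val_fin_one]
        rw [this, eB2]
        push_cast
        ring
    · obtain ⟨h1, h2⟩ := trace_det p q r t u v
      rw [h1, h2]
      constructor
      · have k1 : (p + q) ^ 2 = (a1 + a2) ^ 2 := by rw [eA1]
        have k2 : (r + t) ^ 2 = (b1 + b2) ^ 2 := by rw [eB1]
        have : p ^ 2 + q ^ 2 + 2 * (u.re ^ 2 + u.im ^ 2) + r ^ 2 + t ^ 2 +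
            2 * (v.re ^ 2 + v.im ^ 2) = s1 ^ 2 + s2 ^ 2 := by
          rw [eS1]
          linear_combination k1 + k2 - 2 * eA2 - 2 * eB2
        rw [this]
        push_cast
        ring
      · rw [eA2, eB2, ← eS2]
        push_cast
        ring

/-- the range of the mixed term -/
lemma range_iff (a1 a2 b1 b2 y : ℝ) (ha : a2 ≤ a1) (hb : b2 ≤ b1) :
    (∃ p q r t : ℝ, ∃ u v : ℂ,
      p + q = a1 + a2 ∧ p * q - (u.re ^ 2 + u.im ^ 2) = a1 * a2 ∧
      r + t = b1 + b2 ∧ r * t - (v.re ^ 2 + v.im ^ 2) = b1 * b2 ∧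
      y = p * t + q * r - 2 * (u.re * v.re + u.im * v.im)) ↔
    a1 * b2 + a2 * b1 ≤ y ∧ y ≤ a1 * b1 + a2 * b2 := by
  constructor
  · rintro ⟨p, q, r, t, u, v, h1, h2, h3, h4, rfl⟩
    -- Cauchy-Schwarz for the traceless parts
    set α := (p - q) / 2 with hα
    set β := (r - t) / 2 with hβ
    have e1 : α ^ 2 + (u.re ^ 2 + u.im ^ 2) = ((a1 - a2) / 2) ^ 2 := by
      have k1 : (p + q) ^ 2 = (a1 + a2) ^ 2 := by rw [h1]
      rw [hα]
      linear_combination k1 / 4 - h2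
    have e2 : β ^ 2 + (v.re ^ 2 + v.im ^ 2) = ((b1 - b2) / 2) ^ 2 := by
      have k1 : (r + t) ^ 2 = (b1 + b2) ^ 2 := by rw [h3]
      rw [hβ]
      linear_combination k1 / 4 - h4
    have hcs : (α * β + (u.re * v.re + u.im * v.im)) ^ 2 ≤
        (((a1 - a2) / 2) * ((b1 - b2) / 2)) ^ 2 := by
      rw [mul_pow, ← e1, ← e2]
      nlinarith [sq_nonneg (α * v.re - u.re * β), sq_nonneg (α * v.im - u.im * β),
        sq_nonneg (u.re * v.im - u.im * v.re)]
    have hnn : 0 ≤ ((a1 - a2) / 2) * ((b1 - b2) / 2) :=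
      mul_nonneg (by linarith) (by linarith)
    have hab := abs_le_of_sq_le_sq' hcs hnn
    have hx : p * t + q * r - 2 * (u.re * v.re + u.im * v.im) =
        (a1 + a2) * (b1 + b2) / 2 - 2 * (α * β + (u.re * v.re + u.im * v.im)) := by
      rw [← h1, ← h3, hα, hβ]; ring
    rw [hx]
    constructor
    · nlinarith [hab.2]
    · nlinarith [hab.1]
  · rintro ⟨h1, h2⟩
    by_cases h : a1 = a2
    · refine ⟨a1, a2, b1, b2, 0, 0, rfl, by simp, rfl, by simp, ?_⟩
      subst h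
      simp only [Complex.zero_re, Complex.zero_im]
      linarith
    · have hρ : 0 < a1 - a2 := sub_pos.2 (lt_of_le_of_ne ha (Ne.symm h))
      -- `B` with diagonal `(b1+b2)/2 ± c` and real off-diagonal entry
      set c := ((a1 + a2) * (b1 + b2) / 2 - y) / (a1 - a2) with hc
      have hcy : c * (a1 - a2) = (a1 + a2) * (b1 + b2) / 2 - y := by
        rw [hc]; field_simp
      have hc1 : c ≤ (b1 - b2) / 2 := by
        rw [hc, div_le_iff₀ hρ]; nlinarith
      have hc2 : -((b1 - b2) / 2) ≤ c := by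
        rw [hc, le_div_iff₀ hρ]; nlinarith
      have hw : 0 ≤ ((b1 - b2) / 2) ^ 2 - c ^ 2 := by nlinarith
      refine ⟨a1, a2, (b1 + b2) / 2 + c, (b1 + b2) / 2 - c, 0,
        ((Real.sqrt (((b1 - b2) / 2) ^ 2 - c ^ 2) : ℝ) : ℂ), rfl, by simp, by ring, ?_, ?_⟩
      · simp only [Complex.ofReal_re, Complex.ofReal_im]
        rw [Real.sq_sqrt hw]
        ring
      · simp only [Complex.zero_re, Complex.zero_im, Complex.ofReal_re, Complex.ofReal_im]
        linear_combination hcy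

/-- The case `n = 2` of Q1, complete: necessary and sufficient conditions on eigenvalues
`a1 ≥ a2` of `A`, `b1 ≥ b2` of `B` and singular values `s1 ≥ s2 ≥ 0` of `A + iB`. -/
theorem result (a1 a2 b1 b2 s1 s2 : ℝ) (ha : a2 ≤ a1) (hb : b2 ≤ b1) (hs : s2 ≤ s1)
    (hs0 : 0 ≤ s2) :
    Realizable ![a1, a2] ![b1, b2] ![s1, s2] ↔
      s1 ^ 2 + s2 ^ 2 = a1 ^ 2 + a2 ^ 2 + b1 ^ 2 + b2 ^ 2 ∧
      |a1 * a2 - b1 * b2| ≤ s1 * s2 ∧
      (s1 * s2) ^ 2 ≤ max ((a1 ^ 2 + b1 ^ 2) * (a2 ^ 2 + b2 ^ 2))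
        ((a1 ^ 2 + b2 ^ 2) * (a2 ^ 2 + b1 ^ 2)) ∧
      (0 < a1 * b2 + a2 * b1 → (a1 ^ 2 + b1 ^ 2) * (a2 ^ 2 + b2 ^ 2) ≤ (s1 * s2) ^ 2) ∧
      (a1 * b1 + a2 * b2 < 0 → (a1 ^ 2 + b2 ^ 2) * (a2 ^ 2 + b1 ^ 2) ≤ (s1 * s2) ^ 2) := by
  have hs1 : 0 ≤ s1 := hs0.trans hs
  have hss : 0 ≤ s1 * s2 := mul_nonneg hs1 hs0
  have id1 : (a1 ^ 2 + b1 ^ 2) * (a2 ^ 2 + b2 ^ 2) =
      (a1 * a2 - b1 * b2) ^ 2 + (a1 * b2 + a2 * b1) ^ 2 := by ring
  have id2 : (a1 ^ 2 + b2 ^ 2) * (a2 ^ 2 + b1 ^ 2) =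
      (a1 * a2 - b1 * b2) ^ 2 + (a1 * b1 + a2 * b2) ^ 2 := by ring
  have hmM : a1 * b2 + a2 * b1 ≤ a1 * b1 + a2 * b2 := by nlinarith
  have hkey : Realizable ![a1, a2] ![b1, b2] ![s1, s2] ↔
      s1 ^ 2 + s2 ^ 2 = a1 ^ 2 + a2 ^ 2 + b1 ^ 2 + b2 ^ 2 ∧
      ∃ y, a1 * b2 + a2 * b1 ≤ y ∧ y ≤ a1 * b1 + a2 * b2 ∧
        (s1 * s2) ^ 2 = (a1 * a2 - b1 * b2) ^ 2 + y ^ 2 := by
    rw [core]
    constructor
    · rintro ⟨p, q, r, t, u, v, h1, h2, h3, h4, h5, h6⟩
      obtain ⟨h7, h8⟩ := (range_iff a1 a2 b1 b2 _ ha hb).1 ⟨p, q, r, t, u, v, h1, h2, h3, h4, rfl⟩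
      exact ⟨h5, _, h7, h8, by rw [← h6]; ring⟩
    · rintro ⟨h5, y, h7, h8, h9⟩
      obtain ⟨p, q, r, t, u, v, h1, h2, h3, h4, h6⟩ := (range_iff a1 a2 b1 b2 y ha hb).2 ⟨h7, h8⟩
      exact ⟨p, q, r, t, u, v, h1, h2, h3, h4, h5, by rw [← h6, ← h9]; ring⟩
  rw [hkey, id1, id2]
  set m := a1 * b2 + a2 * b1
  set M := a1 * b1 + a2 * b2
  set d := a1 * a2 - b1 * b2
  refine and_congr_right fun _ => ?_
  constructor
  · rintro ⟨y, h1, h2, h3⟩
    refine ⟨?_, ?_, ?_, ?_⟩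
    · apply abs_le_of_sq_le_sq _ hss
      rw [h3]; nlinarith [sq_nonneg y]
    · rw [h3, ← add_max]
      have : y ^ 2 ≤ max (m ^ 2) (M ^ 2) := by
        rcases le_total 0 y with hy | hy
        · exact le_max_of_le_right (by nlinarith)
        · exact le_max_of_le_left (by nlinarith)
      linarith
    · intro hm
      rw [h3]; nlinarith
    · intro hM
      rw [h3]; nlinarith
  · rintro ⟨h1, h2, h3, h4⟩
    have h5 : d ^ 2 ≤ (s1 * s2) ^ 2 := by
      rw [← sq_abs d]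
      exact pow_le_pow_left₀ (abs_nonneg d) h1 2
    obtain ⟨z, hz⟩ : ∃ z, z = (s1 * s2) ^ 2 - d ^ 2 := ⟨_, rfl⟩
    have hz0 : 0 ≤ z := by linarith
    have hr : Real.sqrt z ^ 2 = z := Real.sq_sqrt hz0
    have hr0 := Real.sqrt_nonneg z
    rw [← add_max] at h2
    have h6 : z ≤ max (m ^ 2) (M ^ 2) := by linarith
    have g1 : (s1 * s2) ^ 2 = d ^ 2 + Real.sqrt z ^ 2 := by rw [hr, hz]; ring
    have g2 : (s1 * s2) ^ 2 = d ^ 2 + (-Real.sqrt z) ^ 2 := by rw [neg_sq]; exact g1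
    rcases le_total (m ^ 2) (M ^ 2) with hc | hc
    · rw [max_eq_right hc] at h6
      by_cases hM : M < 0
      · have h7 := h4 hM
        refine ⟨-Real.sqrt z, ?_, ?_, g2⟩
        · have h8 : z ≤ (-m) ^ 2 := by
            have : M ^ 2 ≤ (-m) ^ 2 := by nlinarith
            linarith
          have : Real.sqrt z ≤ -m := Real.sqrt_le_iff.2 ⟨by linarith, h8⟩
          linarith
        · have h8 : (-M) ^ 2 ≤ z := by rw [neg_sq]; linarith
          have : -M ≤ Real.sqrt z := (Real.le_sqrt' (by linarith)).2 h8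
          linarith
      · push Not at hM
        refine ⟨Real.sqrt z, ?_, Real.sqrt_le_iff.2 ⟨hM, h6⟩, g1⟩
        by_cases hm : 0 < m
        · have h7 := h3 hm
          exact (Real.le_sqrt' hm).2 (by linarith)
        · linarith
    · rw [max_eq_left hc] at h6
      by_cases hm : 0 < m
      · have h7 := h3 hm
        refine ⟨Real.sqrt z, (Real.le_sqrt' hm).2 (by linarith), ?_, g1⟩
        have h8 : z ≤ M ^ 2 := by
          have : m ^ 2 ≤ M ^ 2 := by nlinarith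
          linarith
        exact Real.sqrt_le_iff.2 ⟨by linarith, h8⟩
      · push Not at hm
        refine ⟨-Real.sqrt z, ?_, ?_, g2⟩
        · have h8 : z ≤ (-m) ^ 2 := by rw [neg_sq]; exact h6
          have : Real.sqrt z ≤ -m := Real.sqrt_le_iff.2 ⟨by linarith, h8⟩
          linarith
        · by_cases hM : M < 0
          · have h7 := h4 hM
            have h8 : (-M) ^ 2 ≤ z := by rw [neg_sq]; linarith
            have : -M ≤ Real.sqrt z := (Real.le_sqrt' (by linarith)).2 h8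
            linarith
          · linarith

end Pool.Agent.Results.MP_08a990_an.TwoByTwo
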